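import Mathlib

open MeasureTheory Set

namespace Pool.Agent.R122.Ent

/-- One step of the iterated evaluation of an integral over an ordered simplex. -/
theorem simplex_step {n : ℕ} (g : Fin (n + 1) → ℝ → ℝ) (hg : ∀ i, Measurable (g i))
    (hb : ∀ i x, |g i x| ≤ 1) (T : Set ℝ) (hT : MeasurableSet T) (hT0 : ∀ t ∈ T, 0 ≤ t)
    {b : ℝ} (hTb : ∀ t ∈ T, t ≤ b) (hTd : ∀ t ∈ T, ∀ s, 0 ≤ s → s < t → s ∈ T) :
    ∫ y in {y : Fin (n + 1) → ℝ | (∀ i, y i ∈ T) ∧ StrictMono y}, ∏ i, g i (y i) =
      ∫ t in T, g (Fin.last n) t *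
        ∫ y in {y : Fin n → ℝ | (∀ i, y i ∈ Ico (0 : ℝ) t) ∧ StrictMono y},
          ∏ i, g (Fin.castSucc i) (y i) := by
  classical
  set e := MeasurableEquiv.piFinSuccAbove (fun _ : Fin (n + 1) => ℝ) (Fin.last n) with he
  have mp : MeasurePreserving e.symm := (volume_preserving_piFinSuccAbove (fun _ => ℝ) (Fin.last n)).symm
  set A : Set (Fin (n + 1) → ℝ) := {y | (∀ i, y i ∈ T) ∧ StrictMono y} with hA
  have hsm : ∀ m : ℕ, MeasurableSet {y : Fin m → ℝ | StrictMono y} := by
    intro m
    have : {y : Fin m → ℝ | StrictMono y} = ⋂ i : Fin m, ⋂ j : Fin m, ⋂ (_ : i < j), {y | y i < y j} := by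
      ext y; simp [StrictMono]
    rw [this]
    refine MeasurableSet.iInter fun i => MeasurableSet.iInter fun j => MeasurableSet.iInter fun _ => ?_
    exact measurableSet_lt (measurable_pi_apply i) (measurable_pi_apply j)
  have hAm : MeasurableSet A := by
    have : A = (⋂ i, {y : Fin (n + 1) → ℝ | y i ∈ T}) ∩ {y | StrictMono y} := by
      ext y; simp [hA]
    rw [this]
    exact (MeasurableSet.iInter fun i => hT.preimage (measurable_pi_apply i)).inter (hsm _)
  rw [← mp.setIntegral_preimage_emb e.symm.measurableEmbedding, ← integral_indicator (hAm.preimage e.symm.measurable)]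
  have hfm : Measurable (fun y : Fin (n + 1) → ℝ => ∏ i, g i (y i)) :=
    Finset.measurable_prod _ fun i _ => (hg i).comp (measurable_pi_apply i)
  have hbd : ∀ {m : ℕ} (h : Fin m → ℝ → ℝ) (_ : ∀ i x, |h i x| ≤ 1) (y : Fin m → ℝ), ‖∏ i, h i (y i)‖ ≤ 1 := by
    intro m h hh y
    rw [norm_prod]
    exact Finset.prod_le_one (fun i _ => norm_nonneg _) (fun i _ => by simpa using hh i (y i))
  have hAfin : volume A < ⊤ := by
    refine lt_of_le_of_lt (measure_mono (t := Set.pi univ fun _ => Icc (0:ℝ) b) ?_) ?_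
    · intro y hy i _
      exact ⟨hT0 _ (hy.1 i), hTb _ (hy.1 i)⟩
    · rw [volume_pi_pi]
      exact ENNReal.prod_lt_top (by simp)
  have hint : Integrable ((e.symm ⁻¹' A).indicator (fun z => ∏ i, g i (e.symm z i)))
      (volume.prod volume) := by
    rw [integrable_indicator_iff (hAm.preimage e.symm.measurable)]
    refine Measure.integrableOn_of_bounded (M := 1) ?_ (hfm.comp e.symm.measurable).aestronglyMeasurable ?_
    · have : (volume.prod volume) (e.symm ⁻¹' A) = volume A := mp.measure_preimage hAm.nullMeasurableSet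
      rw [this]; exact hAfin.ne
    · exact Filter.Eventually.of_forall fun z => hbd g hb _
  have hvol : (volume : Measure (ℝ × (Fin n → ℝ))) = volume.prod volume := rfl
  rw [hvol, integral_prod _ hint, ← integral_indicator hT]
  refine integral_congr_ae (Filter.Eventually.of_forall fun t => ?_)
  simp only
  have hes : ∀ (y : Fin n → ℝ), e.symm (t, y) = Fin.snoc (α := fun _ => ℝ) y t := by
    intro y
    rw [he]
    simp [MeasurableEquiv.piFinSuccAbove, Fin.insertNthEquiv, Fin.insertNth_last']
  have hBm : MeasurableSet {y : Fin n → ℝ | (∀ i, y i ∈ Ico (0 : ℝ) t) ∧ StrictMono y} := by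
    have : {y : Fin n → ℝ | (∀ i, y i ∈ Ico (0 : ℝ) t) ∧ StrictMono y} =
        (⋂ i, {y : Fin n → ℝ | y i ∈ Ico 0 t}) ∩ {y | StrictMono y} := by
      ext y; simp
    rw [this]
    exact (MeasurableSet.iInter fun i => measurableSet_Ico.preimage (measurable_pi_apply i)).inter (hsm _)
  by_cases ht : t ∈ T
  · rw [indicator_of_mem ht, ← integral_indicator hBm, ← integral_const_mul]
    refine integral_congr_ae (Filter.Eventually.of_forall fun y => ?_)
    simp only
    have hmem : (t, y) ∈ e.symm ⁻¹' A ↔ y ∈ {y : Fin n → ℝ | (∀ i, y i ∈ Ico (0 : ℝ) t) ∧ StrictMono y} := by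
      rw [mem_preimage, hes, hA]
      constructor
      · rintro ⟨h1, h2⟩
        refine ⟨fun i => ?_, fun i j hij => ?_⟩
        · have a1 := h1 (Fin.castSucc i)
          have a2 := h2 (Fin.castSucc_lt_last i)
          simp only [Fin.snoc_castSucc, Fin.snoc_last] at a1 a2
          exact ⟨hT0 _ a1, a2⟩
        · have a2 := h2 (Fin.castSucc_lt_castSucc_iff.2 hij)
          simpa only [Fin.snoc_castSucc] using a2
      · rintro ⟨h1, h2⟩
        refine ⟨fun i => ?_, ?_⟩
        · refine Fin.lastCases ?_ (fun i => ?_) i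
          · simpa using ht
          · simpa using hTd t ht _ (h1 i).1 (h1 i).2
        · intro i j
          refine Fin.lastCases ?_ (fun i => ?_) i
          · intro hij; exact absurd hij (not_lt.2 (Fin.le_last j))
          · refine Fin.lastCases ?_ (fun j => ?_) j
            · intro _; simpa using (h1 i).2
            · intro hij
              simpa using h2 (Fin.castSucc_lt_castSucc_iff.1 hij)
    by_cases hy : y ∈ {y : Fin n → ℝ | (∀ i, y i ∈ Ico (0 : ℝ) t) ∧ StrictMono y}
    · rw [indicator_of_mem hy, indicator_of_mem (hmem.2 hy), hes, Fin.prod_univ_castSucc]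
      simp [mul_comm]
    · rw [indicator_of_notMem hy, indicator_of_notMem (fun h => hy (hmem.1 h)), mul_zero]
  · rw [indicator_of_notMem ht]
    have : ∀ y : Fin n → ℝ, (e.symm ⁻¹' A).indicator (fun z => ∏ i, g i (e.symm z i)) (t, y) = 0 := by
      intro y
      refine indicator_of_notMem ?_ _
      rw [mem_preimage, hes]
      intro h
      have := h.1 (Fin.last n)
      simp only [Fin.snoc_last] at this
      exact ht this
    simp [this]

end Pool.Agent.R122.Ent
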