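import Pool.Agent.R122.Ent.Defs
import Pool.Agent.R122.Ent.Simplex

open MeasureTheory Set intervalIntegral

namespace Pool.Agent.R122.Ent

/-- primitive -/
noncomputable def prim (f : ℝ → ℝ) (x : ℝ) : ℝ := ∫ t in (0:ℝ)..x, f t

theorem IsDensity.abs_le {f : ℝ → ℝ} (hf : IsDensity f) (x : ℝ) : |f x| ≤ 1 :=
  _root_.abs_le.2 ⟨by linarith [hf.nonneg x], hf.le_one x⟩

theorem integrable_of_bdd {f : ℝ → ℝ} (hf : Measurable f) {C : ℝ} (hb : ∀ x, |f x| ≤ C) (a b : ℝ) :
    IntervalIntegrable f volume a b := by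
  refine ⟨?_, ?_⟩ <;>
  exact Measure.integrableOn_of_bounded (M := C) (by simp) hf.aestronglyMeasurable
    (Filter.Eventually.of_forall fun x => by simpa using hb x)

theorem IsDensity.ii {f : ℝ → ℝ} (hf : IsDensity f) (a b : ℝ) : IntervalIntegrable f volume a b :=
  integrable_of_bdd hf.measurable hf.abs_le a b

theorem prim_lip {f : ℝ → ℝ} (hf : IsDensity f) (x y : ℝ) (hxy : x ≤ y) :
    0 ≤ prim f y - prim f x ∧ prim f y - prim f x ≤ y - x := by
  have : prim f y - prim f x = ∫ t in x..y, f t := by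
    rw [prim, prim, integral_interval_sub_left (hf.ii _ _) (hf.ii _ _)]
  rw [this]
  refine ⟨intervalIntegral.integral_nonneg hxy fun t _ => hf.nonneg t, ?_⟩
  have h := intervalIntegral.integral_mono_on hxy (hf.ii x y) (intervalIntegrable_const (c := (1:ℝ)))
    (fun t _ => hf.le_one t)
  simpa using h

theorem prim_zero (f : ℝ → ℝ) : prim f 0 = 0 := by simp [prim]

theorem prim_cont {f : ℝ → ℝ} (hf : IsDensity f) : Continuous (prim f) :=
  intervalIntegral.continuous_primitive (fun a b => hf.ii a b) 0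

theorem prim_bounds {f : ℝ → ℝ} (hf : IsDensity f) {x : ℝ} (h0 : 0 ≤ x) (h1 : x ≤ 1) :
    0 ≤ prim f x ∧ prim f x ≤ 1 := by
  have h := prim_lip hf 0 x h0
  rw [prim_zero] at h
  exact ⟨by linarith [h.1], by linarith [h.2]⟩

theorem prim_ac {f : ℝ → ℝ} (hf : IsDensity f) (x : ℝ) (hx : 0 ≤ x) :
    AbsolutelyContinuousOnInterval (prim f) 0 x :=
  (hf.ii 0 x).absolutelyContinuousOnInterval_intervalIntegral (by simp [hx])

theorem prim_ae {f : ℝ → ℝ} (hf : IsDensity f) : ∀ᵐ x, HasDerivAt (prim f) (f x) x := by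
  have hl : LocallyIntegrable f volume := by
    rw [locallyIntegrable_iff]
    intro K hK
    exact Measure.integrableOn_of_bounded (M := 1) hK.measure_lt_top.ne hf.measurable.aestronglyMeasurable
      (Filter.Eventually.of_forall fun x => by simpa using hf.abs_le x)
  filter_upwards [_root_.LocallyIntegrable.ae_hasDerivAt_integral hl] with x hx using hx 0

theorem ftc_ac {H h : ℝ → ℝ} {x : ℝ} (hH : AbsolutelyContinuousOnInterval H 0 x)
    (hd : ∀ᵐ t, HasDerivAt H (h t) t) : ∫ t in (0:ℝ)..x, h t = H x - H 0 := by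
  rw [← hH.integral_deriv_eq_sub]
  refine intervalIntegral.integral_congr_ae ?_
  filter_upwards [hd] with t ht _
  exact ht.deriv.symm

theorem id_ac (x : ℝ) : AbsolutelyContinuousOnInterval (fun t : ℝ => t) 0 x :=
  (contDiff_id.contDiffOn).absolutelyContinuousOnInterval

theorem int_mul_prim {f : ℝ → ℝ} (hf : IsDensity f) {x : ℝ} (hx : 0 ≤ x) :
    ∫ t in (0:ℝ)..x, f t * prim f t = prim f x ^ 2 / 2 := by
  have h := ftc_ac (H := fun t => prim f t * prim f t) (h := fun t => 2 * (f t * prim f t))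
    ((prim_ac hf x hx).mul (prim_ac hf x hx)) (by
      filter_upwards [prim_ae hf] with t ht
      exact (ht.mul ht).congr_deriv (by ring))
  rw [intervalIntegral.integral_const_mul] at h
  simp only [prim_zero] at h
  linarith

theorem int_mul_prim_sq {f : ℝ → ℝ} (hf : IsDensity f) {x : ℝ} (hx : 0 ≤ x) :
    ∫ t in (0:ℝ)..x, f t * prim f t ^ 2 = prim f x ^ 3 / 3 := by
  have h := ftc_ac (H := fun t => prim f t * prim f t * prim f t)
    (h := fun t => 3 * (f t * prim f t ^ 2))
    (((prim_ac hf x hx).mul (prim_ac hf x hx)).mul (prim_ac hf x hx)) (by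
      filter_upwards [prim_ae hf] with t ht
      exact ((ht.mul ht).mul ht).congr_deriv (by simp only [Pi.mul_apply]; ring))
  rw [intervalIntegral.integral_const_mul] at h
  simp only [prim_zero] at h
  linarith

theorem int_id_mul {f : ℝ → ℝ} (hf : IsDensity f) :
    ∫ t in (0:ℝ)..1, (f t * t + prim f t) = prim f 1 := by
  have h := ftc_ac (H := fun t => prim f t * t) (h := fun t => f t * t + prim f t)
    ((prim_ac hf 1 zero_le_one).mul (id_ac 1)) (by
      filter_upwards [prim_ae hf] with t ht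
      exact (ht.mul (hasDerivAt_id t)).congr_deriv (by simp))
  rw [h]; simp

/-- the letter factors are bounded measurable -/
theorem lf_meas {f : ℝ → ℝ} (hf : IsDensity f) (b : Bool) : Measurable (letterFactor f b) := by
  unfold letterFactor
  cases b
  · simpa using hf.measurable.const_sub 1
  · simpa using hf.measurable

theorem lf_bdd {f : ℝ → ℝ} (hf : IsDensity f) (b : Bool) (x : ℝ) : |letterFactor f b x| ≤ 1 := by
  have h0 := hf.nonneg x
  have h1 := hf.le_one x
  unfold letterFactor
  cases b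
  · simp only [Bool.false_eq_true, if_false]; rw [abs_le]; constructor <;> linarith
  · simp only [if_true]; rw [abs_le]; constructor <;> linarith

theorem simplex_zero (g : Fin 0 → ℝ → ℝ) (t : ℝ) :
    ∫ y in {y : Fin 0 → ℝ | (∀ i, y i ∈ Ico (0 : ℝ) t) ∧ StrictMono y}, ∏ i, g i (y i) = 1 := by
  have : {y : Fin 0 → ℝ | (∀ i, y i ∈ Ico (0 : ℝ) t) ∧ StrictMono y} = univ := by
    ext y
    simp only [mem_ofPred_eq, mem_univ, iff_true]
    exact ⟨fun i => i.elim0, fun i => i.elim0⟩
  rw [this]
  simp [volume_pi, Measure.pi_of_empty, Measure.real]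

theorem simplex_ico {n : ℕ} (g : Fin (n + 1) → ℝ → ℝ) (hg : ∀ i, Measurable (g i))
    (hb : ∀ i x, |g i x| ≤ 1) {x : ℝ} (hx : 0 ≤ x) :
    ∫ y in {y : Fin (n + 1) → ℝ | (∀ i, y i ∈ Ico (0:ℝ) x) ∧ StrictMono y}, ∏ i, g i (y i) =
      ∫ t in (0:ℝ)..x, g (Fin.last n) t *
        ∫ y in {y : Fin n → ℝ | (∀ i, y i ∈ Ico (0 : ℝ) t) ∧ StrictMono y},
          ∏ i, g (Fin.castSucc i) (y i) := by
  rw [simplex_step g hg hb (Ico 0 x) measurableSet_Ico (fun t ht => ht.1) (fun t ht => ht.2.le)
    (fun t ht s hs hst => ⟨hs, hst.trans ht.2⟩), integral_Ico_eq_integral_Ioc,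
    intervalIntegral.integral_of_le hx]

theorem simplex_icc {n : ℕ} (g : Fin (n + 1) → ℝ → ℝ) (hg : ∀ i, Measurable (g i))
    (hb : ∀ i x, |g i x| ≤ 1) {x : ℝ} (hx : 0 ≤ x) :
    ∫ y in {y : Fin (n + 1) → ℝ | (∀ i, y i ∈ Icc (0:ℝ) x) ∧ StrictMono y}, ∏ i, g i (y i) =
      ∫ t in (0:ℝ)..x, g (Fin.last n) t *
        ∫ y in {y : Fin n → ℝ | (∀ i, y i ∈ Ico (0 : ℝ) t) ∧ StrictMono y},
          ∏ i, g (Fin.castSucc i) (y i) := by
  rw [simplex_step g hg hb (Icc 0 x) measurableSet_Icc (fun t ht => ht.1) (fun t ht => ht.2)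
    (fun t ht s hs hst => ⟨hs, hst.le.trans ht.2⟩), integral_Icc_eq_integral_Ioc,
    intervalIntegral.integral_of_le hx]

theorem density_two {f : ℝ → ℝ} (hf : IsDensity f) (a b : Bool) :
    density [a, b] f = 2 * ∫ t in (0:ℝ)..1, letterFactor f b t *
      ∫ s in (0:ℝ)..t, letterFactor f a s := by
  have h := simplex_icc (n := 1) (fun i => letterFactor f ([a, b].get i)) (fun i => lf_meas hf _)
    (fun i x => lf_bdd hf _ x) (x := 1) zero_le_one
  unfold density
  simp only [List.length_cons, List.length_nil]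
  have h2 : ((0 + 1 + 1 : ℕ).factorial : ℝ) = 2 := by norm_num [Nat.factorial]
  rw [h2]
  congr 1
  refine h.trans ?_
  refine intervalIntegral.integral_congr fun t ht => ?_
  rw [uIcc_of_le zero_le_one] at ht
  have h3 := simplex_ico (n := 0) (fun i => letterFactor f ([a, b].get (Fin.castSucc i)))
    (fun i => lf_meas hf _) (fun i x => lf_bdd hf _ x) (x := t) ht.1
  rw [h3]
  congr 1
  refine intervalIntegral.integral_congr fun s _ => ?_
  rw [simplex_zero]
  simp

theorem density_three {f : ℝ → ℝ} (hf : IsDensity f) (a b c : Bool) :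
    density [a, b, c] f = 6 * ∫ t in (0:ℝ)..1, letterFactor f c t *
      ∫ s in (0:ℝ)..t, letterFactor f b s * ∫ r in (0:ℝ)..s, letterFactor f a r := by
  have h := simplex_icc (n := 2) (fun i => letterFactor f ([a, b, c].get i)) (fun i => lf_meas hf _)
    (fun i x => lf_bdd hf _ x) (x := 1) zero_le_one
  unfold density
  simp only [List.length_cons, List.length_nil]
  have h2 : ((0 + 1 + 1 + 1 : ℕ).factorial : ℝ) = 6 := by norm_num [Nat.factorial]
  rw [h2]
  congr 1
  refine h.trans ?_
  refine intervalIntegral.integral_congr fun t ht => ?_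
  rw [uIcc_of_le zero_le_one] at ht
  have h3 := simplex_ico (n := 1) (fun i => letterFactor f ([a, b, c].get (Fin.castSucc i)))
    (fun i => lf_meas hf _) (fun i x => lf_bdd hf _ x) (x := t) ht.1
  rw [h3]
  congr 1
  refine intervalIntegral.integral_congr fun s hs => ?_
  rw [uIcc_of_le ht.1] at hs
  have h4 := simplex_ico (n := 0)
    (fun i => letterFactor f ([a, b, c].get (Fin.castSucc (Fin.castSucc i))))
    (fun i => lf_meas hf _) (fun i x => lf_bdd hf _ x) (x := s) hs.1
  rw [h4]
  congr 1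
  refine intervalIntegral.integral_congr fun r _ => ?_
  rw [simplex_zero]
  simp

theorem prim_ii {f : ℝ → ℝ} (hf : IsDensity f) (a b : ℝ) : IntervalIntegrable (prim f) volume a b :=
  (prim_cont hf).intervalIntegrable a b

theorem fprim_ii {f : ℝ → ℝ} (hf : IsDensity f) (n : ℕ) (a b : ℝ) :
    IntervalIntegrable (fun t => f t * prim f t ^ n) volume a b :=
  (hf.ii a b).mul_continuousOn ((prim_cont hf).pow n).continuousOn

/-- The three densities in terms of the primitive. -/
theorem density_10 {f : ℝ → ℝ} (hf : IsDensity f) :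
    density [true, false] f = 2 * (∫ t in (0:ℝ)..1, prim f t) - prim f 1 ^ 2 := by
  rw [density_two hf]
  have : ∫ t in (0:ℝ)..1, letterFactor f false t * ∫ s in (0:ℝ)..t, letterFactor f true s =
      ∫ t in (0:ℝ)..1, (prim f t - f t * prim f t) := by
    refine intervalIntegral.integral_congr fun t _ => ?_
    simp only [letterFactor, Bool.false_eq_true, if_false, if_true, prim]
    ring
  rw [this, intervalIntegral.integral_sub (prim_ii hf _ _) (by simpa using fprim_ii hf 1 0 1),
    int_mul_prim hf zero_le_one]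
  ring

theorem idmul_ii {f : ℝ → ℝ} (hf : IsDensity f) (a b : ℝ) :
    IntervalIntegrable (fun t => f t * t) volume a b :=
  (hf.ii a b).mul_continuousOn continuous_id.continuousOn

theorem density_01 {f : ℝ → ℝ} (hf : IsDensity f) :
    density [false, true] f = 2 * prim f 1 - 2 * (∫ t in (0:ℝ)..1, prim f t) - prim f 1 ^ 2 := by
  rw [density_two hf]
  have : ∫ t in (0:ℝ)..1, letterFactor f true t * ∫ s in (0:ℝ)..t, letterFactor f false s =
      ∫ t in (0:ℝ)..1, ((f t * t + prim f t) - prim f t - f t * prim f t) := by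
    refine intervalIntegral.integral_congr fun t _ => ?_
    simp only [letterFactor, Bool.false_eq_true, if_false, if_true]
    rw [intervalIntegral.integral_sub intervalIntegrable_const (hf.ii _ _)]
    simp only [intervalIntegral.integral_const, smul_eq_mul, sub_zero, mul_one, prim]
    ring
  rw [this, intervalIntegral.integral_sub (((idmul_ii hf _ _).add (prim_ii hf _ _)).sub (prim_ii hf _ _))
      (by simpa using fprim_ii hf 1 0 1),
    intervalIntegral.integral_sub ((idmul_ii hf _ _).add (prim_ii hf _ _)) (prim_ii hf _ _),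
    int_id_mul hf, int_mul_prim hf zero_le_one]
  ring

theorem density_110 {f : ℝ → ℝ} (hf : IsDensity f) :
    density [true, true, false] f = 3 * (∫ t in (0:ℝ)..1, prim f t ^ 2) - prim f 1 ^ 3 := by
  rw [density_three hf]
  have : ∫ t in (0:ℝ)..1, letterFactor f false t *
      ∫ s in (0:ℝ)..t, letterFactor f true s * ∫ r in (0:ℝ)..s, letterFactor f true r =
      ∫ t in (0:ℝ)..1, ((1/2) * prim f t ^ 2 - (1/2) * (f t * prim f t ^ 2)) := by
    refine intervalIntegral.integral_congr fun t ht => ?_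
    rw [uIcc_of_le zero_le_one] at ht
    simp only [letterFactor, Bool.false_eq_true, if_false, if_true]
    have h := int_mul_prim hf ht.1
    simp only [prim] at h ⊢
    rw [h]
    ring
  have i1 : IntervalIntegrable (fun t => (1/2) * prim f t ^ 2) volume 0 1 :=
    (((prim_cont hf).pow 2).const_mul (1/2)).intervalIntegrable 0 1
  rw [this, intervalIntegral.integral_sub i1 ((fprim_ii hf 2 0 1).const_mul _),
    intervalIntegral.integral_const_mul, intervalIntegral.integral_const_mul,
    int_mul_prim_sq hf zero_le_one]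
  ring

end Pool.Agent.R122.Ent
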