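import Mathlib

open Set Filter Topology

namespace Pool.Agent.R122.Ent

/-- Purely real-variable crossing lemma: the maximum of a nonincreasing branch starting at its top
value `M` and a branch with growth of concave type ending at its top value `M` is not
differentiable somewhere. -/
theorem exists_not_differentiable {g s1 s2 : ℝ → ℝ} {a b M : ℝ} (hab : a < b)
    (hg : ∀ z ∈ Icc a b, g z = max (s1 z) (s2 z))
    (h1 : ∀ x y, a ≤ x → x ≤ y → y ≤ b → s1 y ≤ s1 x)
    (h2 : ∀ x y, a ≤ x → x < y → y ≤ b → s2 x + (y - x) / (b - x) * (M - s2 x) ≤ s2 y)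
    (hs1 : ∀ z ∈ Icc a b, s1 z ≤ M - (z - a) ^ 2 / 18)
    (hs2 : ∀ z ∈ Icc a b, s2 z ≤ M - (z - b) ^ 2 / 18)
    (h1a : M ≤ s1 a) (h2b : M ≤ s2 b) : ∃ z ∈ Icc a b, ¬ DifferentiableAt ℝ g z := by
  by_contra H
  push Not at H
  have hcont : ContinuousOn g (Icc a b) := fun z hz => (H z hz).continuousAt.continuousWithinAt
  have hga : M ≤ g a := by rw [hg a ⟨le_refl _, hab.le⟩]; exact h1a.trans (le_max_left _ _)
  have hgb : M ≤ g b := by rw [hg b ⟨hab.le, le_refl _⟩]; exact h2b.trans (le_max_right _ _)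
  obtain ⟨z0, hz0, hmin⟩ := isCompact_Icc.exists_isMinOn (nonempty_Icc.2 hab.le) hcont
  have hmM : g z0 < M := by
    have hmid : (a + b) / 2 ∈ Icc a b := ⟨by linarith, by linarith⟩
    have h3 := hmin hmid
    simp only [mem_ofPred_eq] at h3
    refine lt_of_le_of_lt h3 ?_
    rw [hg _ hmid]
    have e1 := hs1 _ hmid
    have e2 := hs2 _ hmid
    have e3 : 0 < (b - a) ^ 2 := by have : 0 < b - a := by linarith
                                    positivity
    refine max_lt ?_ ?_ <;> nlinarith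
  set K : Set ℝ := {z ∈ Icc a b | g z ≤ g z0} with hK
  have hKc : IsCompact K := by
    have : K = Icc a b ∩ g ⁻¹' Iic (g z0) := by ext z; simp [hK]
    rw [this]
    exact isCompact_Icc.of_isClosed_subset (hcont.preimage_isClosed_of_isClosed isClosed_Icc isClosed_Iic)
      inter_subset_left
  obtain ⟨z1, hz1K, hz1⟩ := hKc.exists_isGreatest ⟨z0, hz0, le_refl _⟩
  have hz1e : g z1 = g z0 := le_antisymm hz1K.2 (hmin hz1K.1)
  have ha1 : a < z1 := by
    rcases eq_or_lt_of_le hz1K.1.1 with h | h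
    · exfalso; rw [← h] at hz1e; linarith
    · exact h
  have h1b : z1 < b := by
    rcases eq_or_lt_of_le hz1K.1.2 with h | h
    · exfalso; rw [h] at hz1e; linarith
    · exact h
  have hgt : ∀ z, z1 < z → z ≤ b → g z1 < g z := by
    intro z hz hzb
    by_contra hc
    push Not at hc
    have : z ∈ K := ⟨⟨(ha1.trans hz).le, hzb⟩, by rw [← hz1e]; exact hc⟩
    exact absurd (hz1 this) (not_le.2 hz)
  have hbr : ∀ z, z1 < z → z ≤ b → g z = s2 z := by
    intro z hz hzb
    have e1 := hg z ⟨(ha1.trans hz).le, hzb⟩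
    have e2 := hg z1 hz1K.1
    have e3 := hgt z hz hzb
    have e4 := h1 z1 z ha1.le hz.le hzb
    rcases le_total (s1 z) (s2 z) with h | h
    · rw [e1, max_eq_right h]
    · exfalso
      rw [max_eq_left h] at e1
      have := le_max_left (s1 z1) (s2 z1)
      linarith
  have hineq : ∀ y, z1 < y → y ≤ b → g z1 + (y - z1) / (b - z1) * (M - g z1) ≤ g y := by
    intro y hy hyb
    have hc1 : ContinuousAt g z1 := (H z1 hz1K.1).continuousAt
    have hT : Tendsto (fun z => g z + (y - z) / (b - z) * (M - g z)) (𝓝[>] z1)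
        (𝓝 (g z1 + (y - z1) / (b - z1) * (M - g z1))) := by
      have : ContinuousAt (fun z => g z + (y - z) / (b - z) * (M - g z)) z1 := by
        have hne : b - z1 ≠ 0 := by linarith [h1b]
        fun_prop (disch := assumption)
      exact this.tendsto.mono_left nhdsWithin_le_nhds
    refine le_of_tendsto hT ?_
    filter_upwards [Ioo_mem_nhdsGT hy] with z hz
    rw [hbr z hz.1 (hz.2.le.trans hyb), hbr y hy hyb]
    exact h2 z y (ha1.trans hz.1).le hz.2 hyb
  have hloc : IsLocalMin g z1 := by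
    filter_upwards [Ioo_mem_nhds ha1 h1b] with z hz
    rw [hz1e]
    exact hmin ⟨hz.1.le, hz.2.le⟩
  have hder : HasDerivAt g 0 z1 := by
    have h5 := (H z1 hz1K.1).hasDerivAt
    rwa [hloc.deriv_eq_zero] at h5
  have hsl := (hasDerivAt_iff_tendsto_slope.1 hder).mono_left
    (nhdsWithin_mono z1 (fun y hy => (ne_of_gt hy : y ≠ z1)) : 𝓝[>] z1 ≤ 𝓝[≠] z1)
  have hc : (M - g z1) / (b - z1) ≤ 0 := by
    refine ge_of_tendsto hsl ?_
    filter_upwards [Ioo_mem_nhdsGT h1b] with y hy
    rw [slope_def_field]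
    have h6 := hineq y hy.1 hy.2.le
    have h7 : 0 < y - z1 := by linarith [hy.1]
    rw [le_div_iff₀ h7]
    have : (M - g z1) / (b - z1) * (y - z1) = (y - z1) / (b - z1) * (M - g z1) := by ring
    linarith
  have h8 : 0 < (M - g z1) / (b - z1) := div_pos (by linarith) (by linarith)
  linarith

end Pool.Agent.R122.Ent
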