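import Mathlib

open MeasureTheory Set

namespace Pool.Agent.R122.Ent

/-- `IsDensity f`: `f` is a measurable function with values in `[0,1]`.  Only its values on
`[0,1]` are ever used: it represents the sublebesgue measure `f(x) dx` on `[0,1]`. -/
structure IsDensity (f : ℝ → ℝ) : Prop where
  measurable : Measurable f
  nonneg : ∀ x, 0 ≤ f x
  le_one : ∀ x, f x ≤ 1

/-- The factor attached to a letter (`true` is the letter `1`, `false` the letter `0`):
`f(x)` for the letter `1` and `1 - f(x)` for the letter `0`. -/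
def letterFactor (f : ℝ → ℝ) (b : Bool) (x : ℝ) : ℝ := if b then f x else 1 - f x

/-- The density `ρ_w(f dx) = m! ∫_{0 ≤ x_1 < ... < x_m ≤ 1} ∏ g_i(x_i) dx_1 ... dx_m`
of the binary word `w = w_1 ... w_m`. -/
noncomputable def density (w : List Bool) (f : ℝ → ℝ) : ℝ :=
  (w.length.factorial : ℝ) *
    ∫ x in {x : Fin w.length → ℝ | (∀ i, x i ∈ Icc (0 : ℝ) 1) ∧ StrictMono x},
      ∏ i, letterFactor f (w.get i) (x i)

/-- The feasibility set `E_W` of a list `W = (w_1, ..., w_k)` of binary words. -/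
def feasibleSet {k : ℕ} (W : Fin k → List Bool) : Set (Fin k → ℝ) :=
  {δ | ∃ f, IsDensity f ∧ ∀ i, density (W i) f = δ i}

/-- The entropy `∫_0^1 S(f(x)) dx` of `f dx`, where `S(p) = -p log p - (1-p) log (1-p)` is the
binary entropy function (natural logarithm). -/
noncomputable def entropy (f : ℝ → ℝ) : ℝ := ∫ x in (0 : ℝ)..1, Real.binEntropy (f x)

/-- The entropy function `s_W(δ) = sup {Ent(μ) : ρ_{w_i}(μ) = δ_i for all i}`. -/
noncomputable def entropyFn {k : ℕ} (W : Fin k → List Bool) (δ : Fin k → ℝ) : ℝ :=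
  sSup {e | ∃ f, IsDensity f ∧ (∀ i, density (W i) f = δ i) ∧ entropy f = e}

end Pool.Agent.R122.Ent
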