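import Pool.Agent.R122.Ent.Interp

open MeasureTheory Set intervalIntegral

namespace Pool.Agent.R122.Ent

/-- explicit polynomial densities (cut off outside `[0,1]`) -/
noncomputable def fam (p a b : ℝ) : ℝ → ℝ :=
  (Icc (0:ℝ) 1).indicator fun x => p + 6 * a * (1 - 2 * x) + 60 * b * (1 - 6 * x + 6 * x ^ 2)

theorem fam_density {p a b : ℝ} (hp : |p - 1/2| ≤ 1/20) (ha : |a| ≤ 1/120) (hb : |b| ≤ 1/150) :
    IsDensity (fam p a b) := by
  have hpoly : ∀ x ∈ Icc (0:ℝ) 1,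
      0 ≤ p + 6 * a * (1 - 2 * x) + 60 * b * (1 - 6 * x + 6 * x ^ 2) ∧
      p + 6 * a * (1 - 2 * x) + 60 * b * (1 - 6 * x + 6 * x ^ 2) ≤ 1 := by
    intro x hx
    have h1 : |6 * a * (1 - 2 * x)| ≤ 1/20 := by
      rw [abs_mul, abs_mul]
      have : |1 - 2 * x| ≤ 1 := by rw [_root_.abs_le]; constructor <;> linarith [hx.1, hx.2]
      have h6 : |(6:ℝ)| = 6 := by norm_num
      rw [h6]
      have := mul_le_mul ha this (abs_nonneg _) (by norm_num)
      nlinarith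
    have h2 : |60 * b * (1 - 6 * x + 6 * x ^ 2)| ≤ 2/5 := by
      rw [abs_mul, abs_mul]
      have : |1 - 6 * x + 6 * x ^ 2| ≤ 1 := by
        rw [_root_.abs_le]; constructor
        · nlinarith [sq_nonneg (2 * x - 1)]
        · nlinarith [mul_nonneg hx.1 (by linarith [hx.2] : 0 ≤ 1 - x)]
      have h6 : |(60:ℝ)| = 60 := by norm_num
      rw [h6]
      have := mul_le_mul hb this (abs_nonneg _) (by norm_num)
      nlinarith
    rw [_root_.abs_le] at hp h1 h2
    constructor <;> linarith [hp.1, hp.2, h1.1, h1.2, h2.1, h2.2]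
  refine ⟨?_, fun x => ?_, fun x => ?_⟩
  · exact Measurable.indicator (by fun_prop) measurableSet_Icc
  · unfold fam
    by_cases hx : x ∈ Icc (0:ℝ) 1
    · rw [indicator_of_mem hx]; exact (hpoly x hx).1
    · rw [indicator_of_notMem hx]
  · unfold fam
    by_cases hx : x ∈ Icc (0:ℝ) 1
    · rw [indicator_of_mem hx]; exact (hpoly x hx).2
    · rw [indicator_of_notMem hx]; exact zero_le_one

theorem fam_prim (p a b : ℝ) {x : ℝ} (hx : x ∈ Icc (0:ℝ) 1) :
    prim (fam p a b) x = p * x + 6 * a * (x - x ^ 2) + 60 * b * (x - 3 * x ^ 2 + 2 * x ^ 3) := by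
  have h1 : prim (fam p a b) x =
      ∫ t in (0:ℝ)..x, (p + 6 * a * (1 - 2 * t) + 60 * b * (1 - 6 * t + 6 * t ^ 2)) := by
    refine intervalIntegral.integral_congr fun t ht => ?_
    rw [uIcc_of_le hx.1] at ht
    have hm : t ∈ Icc (0:ℝ) 1 := ⟨ht.1, ht.2.trans hx.2⟩
    simp only [fam, indicator_of_mem hm]
  rw [h1]
  have h2 : ∀ t ∈ uIcc 0 x, HasDerivAt
      (fun t : ℝ => p * t + 6 * a * (t - t ^ 2) + 60 * b * (t - 3 * t ^ 2 + 2 * t ^ 3))
      (p + 6 * a * (1 - 2 * t) + 60 * b * (1 - 6 * t + 6 * t ^ 2)) t := by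
    intro t _
    have e0 := hasDerivAt_id t
    have e2 := hasDerivAt_pow 2 t
    have e3 := hasDerivAt_pow 3 t
    have := ((e0.const_mul p).add ((e0.sub e2).const_mul (6 * a))).add
      (((e0.sub (e2.const_mul 3)).add (e3.const_mul 2)).const_mul (60 * b))
    refine this.congr_deriv ?_
    simp only [Nat.cast_ofNat]
    ring
  rw [intervalIntegral.integral_eq_sub_of_hasDerivAt h2
    (Continuous.intervalIntegrable (by fun_prop) _ _)]
  simp

theorem fam_one (p a b : ℝ) : prim (fam p a b) 1 = p := by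
  rw [fam_prim p a b ⟨zero_le_one, le_refl _⟩]; ring

theorem fam_A (p a b : ℝ) : ∫ t in (0:ℝ)..1, prim (fam p a b) t = p / 2 + a := by
  have h1 : ∫ t in (0:ℝ)..1, prim (fam p a b) t =
      ∫ t in (0:ℝ)..1, (p * t + 6 * a * (t - t ^ 2) + 60 * b * (t - 3 * t ^ 2 + 2 * t ^ 3)) := by
    refine intervalIntegral.integral_congr fun t ht => ?_
    rw [uIcc_of_le zero_le_one] at ht
    exact fam_prim p a b ht
  rw [h1]
  have h2 : ∀ t ∈ uIcc (0:ℝ) 1, HasDerivAt
      (fun t : ℝ => p * (t ^ 2 / 2) + 6 * a * (t ^ 2 / 2 - t ^ 3 / 3) +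
        60 * b * (t ^ 2 / 2 - t ^ 3 + t ^ 4 / 2))
      (p * t + 6 * a * (t - t ^ 2) + 60 * b * (t - 3 * t ^ 2 + 2 * t ^ 3)) t := by
    intro t _
    have e2 := hasDerivAt_pow 2 t
    have e3 := hasDerivAt_pow 3 t
    have e4 := hasDerivAt_pow 4 t
    have := (((e2.div_const 2).const_mul p).add
      (((e2.div_const 2).sub (e3.div_const 3)).const_mul (6 * a))).add
      ((((e2.div_const 2).sub e3).add (e4.div_const 2)).const_mul (60 * b))
    refine this.congr_deriv ?_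
    simp only [Nat.cast_ofNat]
    ring
  rw [intervalIntegral.integral_eq_sub_of_hasDerivAt h2
    (Continuous.intervalIntegrable (by fun_prop) _ _)]
  norm_num
  ring

theorem fam_B (p a b : ℝ) : ∫ t in (0:ℝ)..1, prim (fam p a b) t ^ 2 =
    p ^ 2 / 3 + p * a + 6 / 5 * a ^ 2 - 2 * p * b + 120 / 7 * b ^ 2 := by
  have h1 : ∫ t in (0:ℝ)..1, prim (fam p a b) t ^ 2 =
      ∫ t in (0:ℝ)..1, (p * t + 6 * a * (t - t ^ 2) + 60 * b * (t - 3 * t ^ 2 + 2 * t ^ 3)) ^ 2 := by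
    refine intervalIntegral.integral_congr fun t ht => ?_
    rw [uIcc_of_le zero_le_one] at ht
    simp only [fam_prim p a b ht]
  rw [h1]
  -- coefficients of the polynomial
  have h0 : ∀ t : ℝ, (p * t + 6 * a * (t - t ^ 2) + 60 * b * (t - 3 * t ^ 2 + 2 * t ^ 3)) ^ 2 =
      (p + 6 * a + 60 * b) ^ 2 * t ^ 2 + 2 * (p + 6 * a + 60 * b) * (-6 * a - 180 * b) * t ^ 3 +
      ((-6 * a - 180 * b) ^ 2 + 2 * (p + 6 * a + 60 * b) * (120 * b)) * t ^ 4 +
      2 * (-6 * a - 180 * b) * (120 * b) * t ^ 5 + (120 * b) ^ 2 * t ^ 6 := by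
    intro t; ring
  simp only [h0]
  have h2 : ∀ t ∈ uIcc (0:ℝ) 1, HasDerivAt
      (fun t : ℝ => (p + 6 * a + 60 * b) ^ 2 * (t ^ 3 / 3) +
        2 * (p + 6 * a + 60 * b) * (-6 * a - 180 * b) * (t ^ 4 / 4) +
        ((-6 * a - 180 * b) ^ 2 + 2 * (p + 6 * a + 60 * b) * (120 * b)) * (t ^ 5 / 5) +
        2 * (-6 * a - 180 * b) * (120 * b) * (t ^ 6 / 6) + (120 * b) ^ 2 * (t ^ 7 / 7))
      ((p + 6 * a + 60 * b) ^ 2 * t ^ 2 + 2 * (p + 6 * a + 60 * b) * (-6 * a - 180 * b) * t ^ 3 +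
      ((-6 * a - 180 * b) ^ 2 + 2 * (p + 6 * a + 60 * b) * (120 * b)) * t ^ 4 +
      2 * (-6 * a - 180 * b) * (120 * b) * t ^ 5 + (120 * b) ^ 2 * t ^ 6) t := by
    intro t _
    have e3 := hasDerivAt_pow 3 t
    have e4 := hasDerivAt_pow 4 t
    have e5 := hasDerivAt_pow 5 t
    have e6 := hasDerivAt_pow 6 t
    have e7 := hasDerivAt_pow 7 t
    have := (((((e3.div_const 3).const_mul ((p + 6 * a + 60 * b) ^ 2)).add
      ((e4.div_const 4).const_mul (2 * (p + 6 * a + 60 * b) * (-6 * a - 180 * b)))).add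
      ((e5.div_const 5).const_mul ((-6 * a - 180 * b) ^ 2 + 2 * (p + 6 * a + 60 * b) * (120 * b)))).add
      ((e6.div_const 6).const_mul (2 * (-6 * a - 180 * b) * (120 * b)))).add
      ((e7.div_const 7).const_mul ((120 * b) ^ 2))
    refine this.congr_deriv ?_
    simp only [Nat.cast_ofNat]
    ring
  rw [intervalIntegral.integral_eq_sub_of_hasDerivAt h2
    (Continuous.intervalIntegrable (by fun_prop) _ _)]
  norm_num
  ring

/-- Every fibre value near the constant density is attained. -/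
theorem fib_nonempty {p z : ℝ} (hp : |p - 1/2| ≤ 1/20)
    (hz : z ∈ Icc (p ^ 2 - p ^ 3 - 6 * p / 150 + 360 / 7 / 22500)
      (p ^ 2 - p ^ 3 + 6 * p / 150 + 360 / 7 / 22500)) : (Fib p z).Nonempty := by
  set q : ℝ → ℝ := fun b => p ^ 2 - p ^ 3 - 6 * p * b + 360 / 7 * b ^ 2 with hq
  have hqc : ContinuousOn q (Icc (-(1/150)) (1/150)) := by
    have : Continuous q := by fun_prop
    exact this.continuousOn
  have h := intermediate_value_Icc' (by norm_num : (-(1/150) : ℝ) ≤ 1/150) hqc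
  have hz2 : z ∈ Icc (q (1/150)) (q (-(1/150))) := by
    simp only [hq]
    constructor
    · linarith [hz.1]
    · linarith [hz.2]
  obtain ⟨b, hb, hbz⟩ := h hz2
  refine ⟨fam p 0 b, fam_density hp (by norm_num) (_root_.abs_le.2 ⟨by linarith [hb.1], hb.2⟩),
    fam_one p 0 b, ?_, ?_⟩
  · rw [fam_A]; ring
  · rw [fam_B, ← hbz]; simp only [hq]; ring

end Pool.Agent.R122.Ent
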