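import Mathlib

open Set Filter Topology Real

namespace Pool.Agent.R122.Ent

/-- Strong concavity of the binary entropy: the tangent parabola bound. -/
theorem binEntropy_le_tangent {p y : ℝ} (hp0 : 0 < p) (hp1 : p < 1) (hy0 : 0 ≤ y) (hy1 : y ≤ 1) :
    binEntropy y ≤ binEntropy p + (log (1 - p) - log p) * (y - p) - 2 * (y - p) ^ 2 := by
  set φ : ℝ → ℝ := fun y => binEntropy y + 2 * y ^ 2 with hφ
  have hc : ContinuousOn φ (Icc 0 1) := by
    have : Continuous φ := by fun_prop
    exact this.continuousOn
  have hd1 : ∀ x ∈ Ioo (0:ℝ) 1, HasDerivAt φ (log (1 - x) - log x + 4 * x) x := by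
    intro x hx
    have h1 := hasDerivAt_binEntropy (p := x) hx.1.ne' hx.2.ne
    have h2 : HasDerivAt (fun y : ℝ => 2 * y ^ 2) (4 * x) x := by
      have := (hasDerivAt_pow 2 x).const_mul 2
      simpa [mul_assoc, ← mul_assoc, show (2:ℝ) * 2 = 4 by norm_num] using this
    exact h1.add h2
  have hconc : ConcaveOn ℝ (Icc 0 1) φ := by
    refine AntitoneOn.concaveOn_of_deriv (convex_Icc 0 1) hc ?_ ?_
    · rw [interior_Icc]
      exact fun x hx => (hd1 x hx).differentiableAt.differentiableWithinAt
    · rw [interior_Icc]
      have key : AntitoneOn (fun x : ℝ => log (1 - x) - log x + 4 * x) (Ioo 0 1) := by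
        have hdd : ∀ x ∈ Ioo (0:ℝ) 1, HasDerivAt (fun x : ℝ => log (1 - x) - log x + 4 * x)
            (-1 / (1 - x) - x⁻¹ + 4) x := by
          intro x hx
          have h1 : HasDerivAt (fun x : ℝ => log (1 - x)) (-1 / (1 - x)) x := by
            have : HasDerivAt (fun x : ℝ => 1 - x) (-1) x := by
              simpa using (hasDerivAt_id x).const_sub 1
            exact this.log (by linarith [hx.2])
          have h2 := Real.hasDerivAt_log hx.1.ne'
          have h3 : HasDerivAt (fun x : ℝ => 4 * x) 4 x := by
            simpa using (hasDerivAt_id x).const_mul 4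
          exact (h1.sub h2).add h3
        refine antitoneOn_of_deriv_nonpos (convex_Ioo 0 1)
          (fun x hx => (hdd x hx).continuousAt.continuousWithinAt) ?_ ?_
        · rw [interior_Ioo]
          exact fun x hx => (hdd x hx).differentiableAt.differentiableWithinAt
        · rw [interior_Ioo]
          intro x hx
          rw [(hdd x hx).deriv]
          have hx1 : 0 < 1 - x := by linarith [hx.2]
          have hx0 : 0 < x := hx.1
          have : -1 / (1 - x) - x⁻¹ + 4 = -(1 - 2 * x) ^ 2 / ((1 - x) * x) := by
            field_simp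
            ring
          rw [this]
          exact div_nonpos_of_nonpos_of_nonneg (by nlinarith [sq_nonneg (1 - 2 * x)]) (by positivity)
      intro x hx z hz hxz
      rw [(hd1 x hx).deriv, (hd1 z hz).deriv]
      exact key hx hz hxz
  have hpI : p ∈ Icc (0:ℝ) 1 := ⟨hp0.le, hp1.le⟩
  have hyI : y ∈ Icc (0:ℝ) 1 := ⟨hy0, hy1⟩
  have hdp := hd1 p ⟨hp0, hp1⟩
  have key : φ y ≤ φ p + (log (1 - p) - log p + 4 * p) * (y - p) := by
    rcases lt_trichotomy y p with h | h | h
    · have := hconc.le_slope_of_hasDerivAt hyI hpI h hdp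
      rw [slope_def_field, le_div_iff₀ (by linarith)] at this
      linarith
    · subst h; simp
    · have := hconc.slope_le_of_hasDerivAt hpI hyI h hdp
      rw [slope_def_field, div_le_iff₀ (by linarith)] at this
      linarith
  simp only [hφ] at key
  nlinarith

end Pool.Agent.R122.Ent
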