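import Pool.Agent.R122.Ent.Calc
import Pool.Agent.R122.Ent.Tangent

open MeasureTheory Set intervalIntegral

namespace Pool.Agent.R122.Ent

theorem be_ii {f : ℝ → ℝ} (hf : IsDensity f) (a b : ℝ) :
    IntervalIntegrable (fun t => Real.binEntropy (f t)) volume a b :=
  integrable_of_bdd (Real.binEntropy_continuous.measurable.comp hf.measurable) (C := Real.log 2)
    (fun x => by
      show |Real.binEntropy (f x)| ≤ _
      rw [abs_of_nonneg (Real.binEntropy_nonneg (hf.nonneg x) (hf.le_one x))]
      exact Real.binEntropy_le_log_two) a b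

theorem entropy_le {f : ℝ → ℝ} (hf : IsDensity f) : entropy f ≤ Real.log 2 := by
  have h := intervalIntegral.integral_mono_on (zero_le_one (α := ℝ)) (be_ii hf 0 1)
    (intervalIntegrable_const (c := Real.log 2)) (fun t _ => Real.binEntropy_le_log_two)
  simpa [entropy] using h

/-- The function `F(x) - p x`. -/
noncomputable def dev (f : ℝ → ℝ) (p x : ℝ) : ℝ := prim f x - p * x

theorem dev_cont {f : ℝ → ℝ} (hf : IsDensity f) (p : ℝ) : Continuous (dev f p) := by
  unfold dev
  exact (prim_cont hf).sub (continuous_const.mul continuous_id)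

/-- quadratic expansion of `∫ (p x + l D)^2` -/
theorem int_sq_expand {f : ℝ → ℝ} (hf : IsDensity f) (p l : ℝ) :
    ∫ x in (0:ℝ)..1, (p * x + l * dev f p x) ^ 2 =
      p ^ 2 / 3 + 2 * p * l * (∫ x in (0:ℝ)..1, x * dev f p x) +
        l ^ 2 * ∫ x in (0:ℝ)..1, dev f p x ^ 2 := by
  have hc := dev_cont hf p
  have h1 : ∫ x in (0:ℝ)..1, (p * x + l * dev f p x) ^ 2 =
      ∫ x in (0:ℝ)..1, (p ^ 2 * x ^ 2 + 2 * p * l * (x * dev f p x) + l ^ 2 * dev f p x ^ 2) := by
    refine intervalIntegral.integral_congr fun x _ => ?_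
    ring
  rw [h1, intervalIntegral.integral_add, intervalIntegral.integral_add,
    intervalIntegral.integral_const_mul, intervalIntegral.integral_const_mul,
    intervalIntegral.integral_const_mul, integral_pow]
  · norm_num
    ring
  · exact Continuous.intervalIntegrable (by fun_prop) _ _
  · exact Continuous.intervalIntegrable (by fun_prop) _ _
  · exact Continuous.intervalIntegrable (by fun_prop) _ _
  · exact Continuous.intervalIntegrable (by fun_prop) _ _

/-- entropy bound -/
theorem entropy_bound {f : ℝ → ℝ} (hf : IsDensity f) {p : ℝ} (hp0 : 0 < p) (hp1 : p < 1)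
    (hF : prim f 1 = p) :
    entropy f ≤ Real.binEntropy p -
      ((3 * (∫ t in (0:ℝ)..1, prim f t ^ 2) - p ^ 3) - (p ^ 2 - p ^ 3)) ^ 2 / 18 := by
  set e := ∫ t in (0:ℝ)..1, |f t - p| with he
  have hmabs : Measurable (fun t => |f t - p|) := (hf.measurable.sub_const p).abs
  have habs1 : ∀ x, |f x - p| ≤ 1 := by
    intro x
    rw [_root_.abs_le]; constructor <;> linarith [hf.nonneg x, hf.le_one x]
  have hiabs : ∀ a b, IntervalIntegrable (fun t => |f t - p|) volume a b :=
    integrable_of_bdd hmabs (C := 1) (fun x => by rw [abs_abs]; exact habs1 x)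
  have he0 : 0 ≤ e := intervalIntegral.integral_nonneg zero_le_one fun t _ => abs_nonneg _
  -- entropy part
  have h1 : entropy f ≤ Real.binEntropy p - 2 * e ^ 2 := by
    have hmono := intervalIntegral.integral_mono_on (zero_le_one (α := ℝ)) (be_ii hf 0 1)
      (g := fun t => Real.binEntropy p + 2 * e ^ 2 + (Real.log (1 - p) - Real.log p) * (f t - p)
        - 4 * e * |f t - p|)
      (by
        refine ((intervalIntegrable_const).add (((hf.ii 0 1).sub intervalIntegrable_const).const_mul _)).sub ?_
        exact (hiabs 0 1).const_mul _)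
      (fun t _ => by
        have h2 := binEntropy_le_tangent hp0 hp1 (hf.nonneg t) (hf.le_one t)
        have h3 : (f t - p) ^ 2 = |f t - p| ^ 2 := (sq_abs _).symm
        nlinarith [sq_nonneg (|f t - p| - e)])
    have hval : ∫ t in (0:ℝ)..1, (Real.binEntropy p + 2 * e ^ 2 +
        (Real.log (1 - p) - Real.log p) * (f t - p) - 4 * e * |f t - p|) =
        Real.binEntropy p + 2 * e ^ 2 + (Real.log (1 - p) - Real.log p) * (prim f 1 - p)
          - 4 * e * e := by
      rw [intervalIntegral.integral_sub, intervalIntegral.integral_add,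
        intervalIntegral.integral_const_mul, intervalIntegral.integral_const_mul,
        intervalIntegral.integral_sub (hf.ii _ _) intervalIntegrable_const]
      · simp [prim, he]
      · exact intervalIntegrable_const
      · exact ((hf.ii 0 1).sub intervalIntegrable_const).const_mul _
      · exact (intervalIntegrable_const).add (((hf.ii 0 1).sub intervalIntegrable_const).const_mul _)
      · exact (hiabs 0 1).const_mul _
    rw [hval, hF] at hmono
    unfold entropy
    nlinarith
  -- density part
  have hdev : ∀ x ∈ Icc (0:ℝ) 1, |dev f p x| ≤ e := by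
    intro x hx
    have : dev f p x = ∫ t in (0:ℝ)..x, (f t - p) := by
      rw [intervalIntegral.integral_sub (hf.ii _ _) intervalIntegrable_const]
      simp [dev, prim, mul_comm]
    rw [this]
    refine (intervalIntegral.abs_integral_le_integral_abs hx.1).trans ?_
    rw [he, ← intervalIntegral.integral_add_adjacent_intervals (hiabs 0 x) (hiabs x 1)]
    have : 0 ≤ ∫ t in x..1, |f t - p| :=
      intervalIntegral.integral_nonneg hx.2 fun t _ => abs_nonneg _
    linarith
  have h2 : |(∫ t in (0:ℝ)..1, prim f t ^ 2) - p ^ 2 / 3| ≤ 2 * e := by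
    have hx2 : p ^ 2 / 3 = ∫ t in (0:ℝ)..1, p ^ 2 * t ^ 2 := by
      rw [intervalIntegral.integral_const_mul, integral_pow]; norm_num; ring
    have i1 : IntervalIntegrable (fun t => prim f t ^ 2) volume 0 1 :=
      ((prim_cont hf).pow 2).intervalIntegrable _ _
    have i2 : IntervalIntegrable (fun t : ℝ => p ^ 2 * t ^ 2) volume 0 1 :=
      Continuous.intervalIntegrable (by fun_prop) _ _
    rw [hx2, ← intervalIntegral.integral_sub i1 i2]
    refine (intervalIntegral.abs_integral_le_integral_abs zero_le_one).trans ?_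
    have h3 := intervalIntegral.integral_mono_on (μ := volume) (zero_le_one (α := ℝ))
      (f := fun t => |prim f t ^ 2 - p ^ 2 * t ^ 2|) (g := fun _ => 2 * e)
      (Continuous.intervalIntegrable (by have := prim_cont hf; fun_prop) _ _)
      intervalIntegrable_const (fun t ht => by
        have e1 := hdev t ht
        have e2 := prim_bounds hf ht.1 ht.2
        have e3 : prim f t ^ 2 - p ^ 2 * t ^ 2 = dev f p t * (prim f t + p * t) := by
          unfold dev; ring
        rw [e3, abs_mul]
        have e4 : |prim f t + p * t| ≤ 2 := by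
          have : 0 ≤ p * t := mul_nonneg hp0.le ht.1
          have : p * t ≤ 1 := by nlinarith [ht.1, ht.2]
          rw [_root_.abs_le]; constructor <;> linarith [e2.1, e2.2]
        calc |dev f p t| * |prim f t + p * t| ≤ e * 2 :=
              mul_le_mul e1 e4 (abs_nonneg _) he0
          _ = 2 * e := by ring)
    refine le_trans (le_of_eq ?_) (h3.trans (le_of_eq ?_))
    · rfl
    · simp
  have h3 : ((3 * (∫ t in (0:ℝ)..1, prim f t ^ 2) - p ^ 3) - (p ^ 2 - p ^ 3)) ^ 2 ≤ 36 * e ^ 2 := by
    have e1 : (3 * (∫ t in (0:ℝ)..1, prim f t ^ 2) - p ^ 3) - (p ^ 2 - p ^ 3) =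
        3 * ((∫ t in (0:ℝ)..1, prim f t ^ 2) - p ^ 2 / 3) := by ring
    rw [e1, mul_pow, ← sq_abs ((∫ t in (0:ℝ)..1, prim f t ^ 2) - p ^ 2 / 3)]
    have := abs_nonneg ((∫ t in (0:ℝ)..1, prim f t ^ 2) - p ^ 2 / 3)
    nlinarith
  linarith

/-- The fibre: densities with total mass `p`, `∫ F = p/2` and `3 ∫ F^2 - p^3 = z`. -/
def Fib (p z : ℝ) : Set (ℝ → ℝ) :=
  {f | IsDensity f ∧ prim f 1 = p ∧ ∫ t in (0:ℝ)..1, prim f t = p / 2 ∧
    3 * (∫ t in (0:ℝ)..1, prim f t ^ 2) - p ^ 3 = z}

/-- Interpolation with the constant density. -/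
theorem interp {f : ℝ → ℝ} {p z z' : ℝ} (hp0 : 0 < p) (hp1 : p < 1) (hf : f ∈ Fib p z)
    (hz' : z' ∈ uIcc (p ^ 2 - p ^ 3) z) :
    ∃ f' ∈ Fib p z', ∃ l : ℝ, 0 ≤ l ∧ l ≤ 1 ∧
      l * entropy f + (1 - l) * Real.binEntropy p ≤ entropy f' ∧
      z' ≤ l * z + (1 - l) * (p ^ 2 - p ^ 3) := by
  obtain ⟨hfd, hF, hA, hB⟩ := hf
  set al := ∫ x in (0:ℝ)..1, x * dev f p x with hal
  set be := ∫ x in (0:ℝ)..1, dev f p x ^ 2 with hbe
  have hbe0 : 0 ≤ be := intervalIntegral.integral_nonneg zero_le_one fun t _ => sq_nonneg _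
  set q : ℝ → ℝ := fun l => 3 * (p ^ 2 / 3 + 2 * p * l * al + l ^ 2 * be) - p ^ 3 with hq
  have hq0 : q 0 = p ^ 2 - p ^ 3 := by simp only [hq]; ring
  have hq1 : q 1 = z := by
    have h := int_sq_expand hfd p 1
    have h2 : ∫ x in (0:ℝ)..1, (p * x + 1 * dev f p x) ^ 2 = ∫ t in (0:ℝ)..1, prim f t ^ 2 := by
      refine intervalIntegral.integral_congr fun x _ => ?_
      simp only [dev]
      ring
    rw [h2] at h
    simp only [hq]
    rw [← hB, h]
  have hqc : ContinuousOn q (uIcc 0 1) := by
    have : Continuous q := by fun_prop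
    exact this.continuousOn
  obtain ⟨l, hl, hlz⟩ : z' ∈ q '' uIcc 0 1 :=
    intermediate_value_uIcc hqc (by rw [hq0, hq1]; exact hz')
  rw [uIcc_of_le zero_le_one] at hl
  obtain ⟨hl0, hl1⟩ := hl
  have hd' : IsDensity (fun x => l * f x + (1 - l) * p) := by
    refine ⟨(hfd.measurable.const_mul l).add_const _, fun x => ?_, fun x => ?_⟩
    · have := hfd.nonneg x
      have : 0 ≤ 1 - l := by linarith
      positivity
    · have := hfd.le_one x
      nlinarith
  have hprim : ∀ x, prim (fun x => l * f x + (1 - l) * p) x = p * x + l * dev f p x := by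
    intro x
    unfold prim dev
    rw [intervalIntegral.integral_add ((hfd.ii _ _).const_mul _) intervalIntegrable_const,
      intervalIntegral.integral_const_mul]
    simp only [intervalIntegral.integral_const, smul_eq_mul, prim]
    ring
  refine ⟨fun x => l * f x + (1 - l) * p, ⟨hd', ?_, ?_, ?_⟩, l, hl0, hl1, ?_, ?_⟩
  · rw [hprim, dev, hF]; ring
  · have : ∫ t in (0:ℝ)..1, prim (fun x => l * f x + (1 - l) * p) t =
        ∫ t in (0:ℝ)..1, (l * prim f t + (1 - l) * p * t) := by
      refine intervalIntegral.integral_congr fun x _ => ?_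
      simp only [hprim, dev]
      ring
    rw [this, intervalIntegral.integral_add ((prim_ii hfd _ _).const_mul _)
      (Continuous.intervalIntegrable (by fun_prop) _ _), intervalIntegral.integral_const_mul,
      intervalIntegral.integral_const_mul, hA]
    simp only [integral_id]
    ring
  · have : ∫ t in (0:ℝ)..1, prim (fun x => l * f x + (1 - l) * p) t ^ 2 =
        ∫ t in (0:ℝ)..1, (p * t + l * dev f p t) ^ 2 := by
      refine intervalIntegral.integral_congr fun x _ => ?_
      simp only [hprim]
    rw [this, int_sq_expand hfd p l, ← hlz]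
  · have hmono := intervalIntegral.integral_mono_on (zero_le_one (α := ℝ))
      (f := fun t => l * Real.binEntropy (f t) + (1 - l) * Real.binEntropy p)
      (((be_ii hfd 0 1).const_mul l).add intervalIntegrable_const) (be_ii hd' 0 1)
      (fun t _ => by
        have hc := Real.strictConcave_binEntropy.concaveOn.2 (x := f t) (y := p)
          ⟨hfd.nonneg t, hfd.le_one t⟩ ⟨hp0.le, hp1.le⟩ hl0 (by linarith : 0 ≤ 1 - l) (by ring)
        simpa [smul_eq_mul] using hc)
    have hval : ∫ t in (0:ℝ)..1, (l * Real.binEntropy (f t) + (1 - l) * Real.binEntropy p) =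
        l * entropy f + (1 - l) * Real.binEntropy p := by
      rw [intervalIntegral.integral_add ((be_ii hfd 0 1).const_mul l) intervalIntegrable_const,
        intervalIntegral.integral_const_mul]
      simp [entropy]
    rw [hval] at hmono
    exact hmono
  · rw [← hlz, ← hq1]
    simp only [hq]
    nlinarith [mul_nonneg (mul_nonneg hl0 (by linarith : 0 ≤ 1 - l)) hbe0]

end Pool.Agent.R122.Ent
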