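import Pool.Agent.R122.Ent.Family
import Pool.Agent.R122.Ent.Crit

open MeasureTheory Set intervalIntegral

namespace Pool.Agent.R122.Ent

/-- the three words `10`, `01`, `110` -/
def W0 : Fin 3 → List Bool := ![[true, false], [false, true], [true, true, false]]

theorem dens_iff {f : ℝ → ℝ} (hf : IsDensity f) (δ : Fin 3 → ℝ) :
    (∀ i, density (W0 i) f = δ i) ↔
      (2 * (∫ t in (0:ℝ)..1, prim f t) - prim f 1 ^ 2 = δ 0 ∧
       2 * prim f 1 - 2 * (∫ t in (0:ℝ)..1, prim f t) - prim f 1 ^ 2 = δ 1 ∧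
       3 * (∫ t in (0:ℝ)..1, prim f t ^ 2) - prim f 1 ^ 3 = δ 2) := by
  have w0 : W0 0 = [true, false] := rfl
  have w1 : W0 1 = [false, true] := rfl
  have w2 : W0 2 = [true, true, false] := rfl
  rw [Fin.forall_fin_succ, Fin.forall_fin_two]
  simp only [Fin.succ_zero_eq_one, Fin.succ_one_eq_two]
  rw [w0, w1, w2, density_10 hf, density_01 hf, density_110 hf]

/-- sup of the entropy on a fibre -/
noncomputable def fs (p z : ℝ) : ℝ := sSup (entropy '' Fib p z)

theorem bdd (p z : ℝ) : BddAbove (entropy '' Fib p z) := by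
  refine ⟨Real.log 2, ?_⟩
  rintro _ ⟨f, hf, rfl⟩
  exact entropy_le hf.1

theorem le_fs {p z : ℝ} {f : ℝ → ℝ} (hf : f ∈ Fib p z) : entropy f ≤ fs p z :=
  le_csSup (bdd p z) ⟨f, hf, rfl⟩

noncomputable def c0 : ℝ := 2499 / 10000
noncomputable def p1 : ℝ := 49 / 100
noncomputable def p2 : ℝ := 51 / 100
noncomputable def a1 : ℝ := p1 ^ 2 - p1 ^ 3
noncomputable def a2 : ℝ := p2 ^ 2 - p2 ^ 3

theorem fs_bound {p z : ℝ} (hp0 : 0 < p) (hp1 : p < 1) (hne : (Fib p z).Nonempty) :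
    fs p z ≤ Real.binEntropy p - (z - (p ^ 2 - p ^ 3)) ^ 2 / 18 := by
  refine csSup_le (hne.image _) ?_
  rintro _ ⟨f, hf, rfl⟩
  have := entropy_bound hf.1 hp0 hp1 hf.2.1
  rwa [hf.2.2.2] at this

theorem const_mem {p : ℝ} (hp0 : 0 ≤ p) (hp1 : p ≤ 1) :
    (fun _ => p) ∈ Fib p (p ^ 2 - p ^ 3) ∧ entropy (fun _ => p) = Real.binEntropy p := by
  have hpr : ∀ x, prim (fun _ => p) x = p * x := by intro x; simp [prim, mul_comm]
  refine ⟨⟨⟨measurable_const, fun _ => hp0, fun _ => hp1⟩, ?_, ?_, ?_⟩, ?_⟩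
  · rw [hpr]; ring
  · simp only [hpr]
    rw [intervalIntegral.integral_const_mul p (fun t => t), integral_id]; ring
  · simp only [hpr, mul_pow]
    rw [intervalIntegral.integral_const_mul (p ^ 2) (fun t => t ^ 2), integral_pow]; norm_num; ring
  · simp [entropy]

theorem fs_top {p : ℝ} (hp0 : 0 ≤ p) (hp1 : p ≤ 1) : Real.binEntropy p ≤ fs p (p ^ 2 - p ^ 3) := by
  have h := const_mem hp0 hp1
  rw [← h.2]
  exact le_fs h.1

theorem set_eq (z : ℝ) :
    {e | ∃ f, IsDensity f ∧ (∀ i, density (W0 i) f = (![c0, c0, z] : Fin 3 → ℝ) i) ∧ entropy f = e} =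
      entropy '' Fib p1 z ∪ entropy '' Fib p2 z := by
  have e0 : (![c0, c0, z] : Fin 3 → ℝ) 0 = c0 := rfl
  have e1 : (![c0, c0, z] : Fin 3 → ℝ) 1 = c0 := rfl
  have e2 : (![c0, c0, z] : Fin 3 → ℝ) 2 = z := rfl
  ext e
  simp only [mem_ofPred_eq, mem_union, mem_image]
  constructor
  · rintro ⟨f, hf, hd, he⟩
    rw [dens_iff hf] at hd
    obtain ⟨h0, h1, h2⟩ := hd
    rw [e0, c0] at h0
    rw [e1, c0] at h1
    rw [e2] at h2
    have hprod : (prim f 1 - 49 / 100) * (prim f 1 - 51 / 100) = 0 := by nlinarith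
    rcases mul_eq_zero.1 hprod with h | h
    · left
      have hp : prim f 1 = 49 / 100 := by linarith
      rw [hp] at h0 h1 h2
      refine ⟨f, ⟨hf, by rw [hp, p1], by rw [p1]; linarith, by rw [p1]; linarith⟩, he⟩
    · right
      have hp : prim f 1 = 51 / 100 := by linarith
      rw [hp] at h0 h1 h2
      refine ⟨f, ⟨hf, by rw [hp, p2], by rw [p2]; linarith, by rw [p2]; linarith⟩, he⟩
  · rintro (⟨f, ⟨hf, hp, hA, hB⟩, he⟩ | ⟨f, ⟨hf, hp, hA, hB⟩, he⟩)
    · refine ⟨f, hf, (dens_iff hf _).2 ?_, he⟩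
      rw [hp, hA, hB, e0, e1, e2]
      refine ⟨?_, ?_, rfl⟩ <;> rw [c0, p1] <;> norm_num
    · refine ⟨f, hf, (dens_iff hf _).2 ?_, he⟩
      rw [hp, hA, hB, e0, e1, e2]
      refine ⟨?_, ?_, rfl⟩ <;> rw [c0, p2] <;> norm_num

theorem ne1 {z : ℝ} (hz : z ∈ Icc a1 a2) : (Fib p1 z).Nonempty := by
  refine fib_nonempty (by rw [p1]; norm_num [abs_le]) ?_
  simp only [a1, a2, p1, p2, mem_Icc] at hz ⊢
  constructor <;> linarith [hz.1, hz.2]

theorem ne2 {z : ℝ} (hz : z ∈ Icc a1 a2) : (Fib p2 z).Nonempty := by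
  refine fib_nonempty (by rw [p2]; norm_num [abs_le]) ?_
  simp only [a1, a2, p1, p2, mem_Icc] at hz ⊢
  constructor <;> linarith [hz.1, hz.2]

theorem entropyFn_eq {z : ℝ} (hz : z ∈ Icc a1 a2) :
    entropyFn W0 ![c0, c0, z] = max (fs p1 z) (fs p2 z) := by
  unfold entropyFn fs
  rw [set_eq, csSup_union (bdd _ _) ((ne1 hz).image _) (bdd _ _) ((ne2 hz).image _)]

theorem exists_point : ∃ z ∈ Icc a1 a2, ¬ DifferentiableAt ℝ (fun z => entropyFn W0 ![c0, c0, z]) z := by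
  have hM : Real.binEntropy p2 = Real.binEntropy p1 := by
    have : p2 = 1 - p1 := by rw [p1, p2]; norm_num
    rw [this, Real.binEntropy_one_sub]
  have hp10 : 0 < p1 := by rw [p1]; norm_num
  have hp11 : p1 < 1 := by rw [p1]; norm_num
  have hp20 : 0 < p2 := by rw [p2]; norm_num
  have hp21 : p2 < 1 := by rw [p2]; norm_num
  have hab : a1 < a2 := by rw [a1, a2, p1, p2]; norm_num
  refine exists_not_differentiable (s1 := fs p1) (s2 := fs p2) (M := Real.binEntropy p1) hab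
    (fun z hz => entropyFn_eq hz) ?_ ?_ ?_ ?_ ?_ ?_
  · -- monotone branch
    intro x y hx hxy hy
    refine csSup_le ((ne1 ⟨hx.trans hxy, hy⟩).image _) ?_
    rintro _ ⟨f, hf, rfl⟩
    obtain ⟨f', hf', l, hl0, hl1, hle, -⟩ := interp hp10 hp11 hf (z' := x)
      (by
        change x ∈ uIcc a1 y
        rw [uIcc_of_le (hx.trans hxy)]; exact ⟨hx, hxy⟩)
    have hb : entropy f ≤ Real.binEntropy p1 := by
      have := entropy_bound hf.1 hp10 hp11 hf.2.1
      nlinarith [sq_nonneg ((3 * (∫ t in (0:ℝ)..1, prim f t ^ 2) - p1 ^ 3) - (p1 ^ 2 - p1 ^ 3))]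
    refine le_trans ?_ (le_fs hf')
    nlinarith
  · -- growth branch
    intro x y hx hxy hy
    have hxb : x < a2 := hxy.trans_le hy
    have hden : 0 < a2 - x := by linarith
    have key : ∀ f ∈ Fib p2 x, entropy f + (y - x) / (a2 - x) * (Real.binEntropy p1 - entropy f) ≤
        fs p2 y := by
      intro f hf
      obtain ⟨f', hf', l, hl0, hl1, hle, hconv⟩ := interp hp20 hp21 hf (z' := y)
        (by
          change y ∈ uIcc a2 x
          rw [uIcc_of_ge hxb.le]; exact ⟨hxy.le, hy⟩)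
      have hb : entropy f ≤ Real.binEntropy p1 := by
        have := entropy_bound hf.1 hp20 hp21 hf.2.1
        rw [hM] at this
        nlinarith [sq_nonneg ((3 * (∫ t in (0:ℝ)..1, prim f t ^ 2) - p2 ^ 3) - (p2 ^ 2 - p2 ^ 3))]
      refine le_trans ?_ (le_fs hf')
      refine le_trans ?_ hle
      rw [hM]
      have h1 : (y - x) / (a2 - x) ≤ 1 - l := by
        rw [div_le_iff₀ hden]
        change y ≤ l * x + (1 - l) * a2 at hconv
        nlinarith
      nlinarith [mul_le_mul_of_nonneg_right h1 (by linarith : 0 ≤ Real.binEntropy p1 - entropy f)]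
    have h2 : ∀ e ∈ entropy '' Fib p2 x,
        e ≤ (fs p2 y - (y - x) / (a2 - x) * Real.binEntropy p1) / (1 - (y - x) / (a2 - x)) ∨
        1 - (y - x) / (a2 - x) = 0 := by
      rintro _ ⟨f, hf, rfl⟩
      rcases eq_or_ne (1 - (y - x) / (a2 - x)) 0 with h | h
      · right; exact h
      · left
        have h3 : (y - x) / (a2 - x) ≤ 1 := by
          rw [div_le_one hden]; linarith
        have h4 : 0 < 1 - (y - x) / (a2 - x) := lt_of_le_of_ne (by linarith) (Ne.symm h)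
        rw [le_div_iff₀ h4]
        have := key f hf
        nlinarith
    obtain ⟨f0, hf0⟩ := ne2 (z := x) ⟨hx, hxb.le⟩
    rcases eq_or_ne (1 - (y - x) / (a2 - x)) 0 with h | h
    · have h3 : (y - x) / (a2 - x) = 1 := by linarith
      have h4 := key f0 hf0
      rw [h3] at h4 ⊢
      linarith
    · have h3 : (y - x) / (a2 - x) ≤ 1 := by
        rw [div_le_one hden]; linarith
      have h4 : 0 < 1 - (y - x) / (a2 - x) := lt_of_le_of_ne (by linarith) (Ne.symm h)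
      have h5 : fs p2 x ≤
          (fs p2 y - (y - x) / (a2 - x) * Real.binEntropy p1) / (1 - (y - x) / (a2 - x)) :=
        csSup_le ((ne2 (z := x) ⟨hx, hxb.le⟩).image _) fun e he => (h2 e he).resolve_right h
      rw [le_div_iff₀ h4] at h5
      nlinarith
  · intro z hz
    exact fs_bound hp10 hp11 (ne1 hz)
  · intro z hz
    have := fs_bound hp20 hp21 (ne2 hz)
    rwa [hM] at this
  · exact fs_top hp10.le hp11.le
  · rw [← hM]; exact fs_top hp20.le hp21.le

/-- the whole segment lies in the interior of the feasibility set -/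
theorem seg_interior {z : ℝ} (hz : z ∈ Icc a1 a2) :
    (![c0, c0, z] : Fin 3 → ℝ) ∈ interior (feasibleSet W0) := by
  set P : (Fin 3 → ℝ) → ℝ := fun δ => (1 - Real.sqrt (1 - 2 * (δ 0 + δ 1))) / 2 with hP
  set Aa : (Fin 3 → ℝ) → ℝ := fun δ => (δ 0 + P δ ^ 2) / 2 - P δ / 2 with hAa
  have hPc : Continuous P := by fun_prop
  have hAc : Continuous Aa := by fun_prop
  set L : (Fin 3 → ℝ) → ℝ := fun δ => 3 * (P δ ^ 2 / 3 + P δ * Aa δ + 6 / 5 * Aa δ ^ 2
    - 2 * P δ * (1/150) + 120 / 7 * (1/150) ^ 2) - P δ ^ 3 with hL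
  set R : (Fin 3 → ℝ) → ℝ := fun δ => 3 * (P δ ^ 2 / 3 + P δ * Aa δ + 6 / 5 * Aa δ ^ 2
    + 2 * P δ * (1/150) + 120 / 7 * (1/150) ^ 2) - P δ ^ 3 with hR
  have hLc : Continuous L := by fun_prop
  have hRc : Continuous R := by fun_prop
  set U : Set (Fin 3 → ℝ) := {δ | 0 < 1 - 2 * (δ 0 + δ 1) ∧ |P δ - 1/2| < 1/20 ∧ |Aa δ| < 1/120 ∧
    L δ < δ 2 ∧ δ 2 < R δ} with hU
  have hUo : IsOpen U := by
    have h1 : IsOpen {δ : Fin 3 → ℝ | 0 < 1 - 2 * (δ 0 + δ 1)} :=
      isOpen_lt continuous_const (by fun_prop)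
    have h2 : IsOpen {δ : Fin 3 → ℝ | |P δ - 1/2| < 1/20} :=
      isOpen_lt ((hPc.sub continuous_const).abs) continuous_const
    have h3 : IsOpen {δ : Fin 3 → ℝ | |Aa δ| < 1/120} := isOpen_lt hAc.abs continuous_const
    have h4 : IsOpen {δ : Fin 3 → ℝ | L δ < δ 2} := isOpen_lt hLc (continuous_apply 2)
    have h5 : IsOpen {δ : Fin 3 → ℝ | δ 2 < R δ} := isOpen_lt (continuous_apply 2) hRc
    exact h1.inter (h2.inter (h3.inter (h4.inter h5)))
  have hUsub : U ⊆ feasibleSet W0 := by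
    rintro δ ⟨hpos, hPd, hAd, hLd, hRd⟩
    have hsq : Real.sqrt (1 - 2 * (δ 0 + δ 1)) ^ 2 = 1 - 2 * (δ 0 + δ 1) := Real.sq_sqrt hpos.le
    have hPeq : 2 * P δ * (1 - P δ) = δ 0 + δ 1 := by
      simp only [hP]
      nlinarith
    set q : ℝ → ℝ := fun b => 3 * (P δ ^ 2 / 3 + P δ * Aa δ + 6 / 5 * Aa δ ^ 2
      - 2 * P δ * b + 120 / 7 * b ^ 2) - P δ ^ 3 with hq
    have hqc : ContinuousOn q (Icc (-(1/150)) (1/150)) := by
      have : Continuous q := by fun_prop
      exact this.continuousOn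
    have h := intermediate_value_Icc' (by norm_num : (-(1/150) : ℝ) ≤ 1/150) hqc
    have hz2 : δ 2 ∈ Icc (q (1/150)) (q (-(1/150))) := by
      constructor
      · exact hLd.le
      · refine hRd.le.trans (le_of_eq ?_)
        simp only [hR, hq]
        ring
    obtain ⟨b, hb, hbz⟩ := h hz2
    have hfd : IsDensity (fam (P δ) (Aa δ) b) :=
      fam_density hPd.le hAd.le (_root_.abs_le.2 ⟨by linarith [hb.1], hb.2⟩)
    refine ⟨fam (P δ) (Aa δ) b, hfd, (dens_iff hfd δ).2 ?_⟩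
    rw [fam_one, fam_A, fam_B]
    refine ⟨?_, ?_, hbz⟩
    · simp only [hAa]; ring
    · have : 2 * P δ - 2 * (P δ / 2 + Aa δ) - P δ ^ 2 = 2 * P δ * (1 - P δ) - δ 0 := by
        simp only [hAa]; ring
      rw [this, hPeq]; ring
  refine interior_maximal hUsub hUo ?_
  have e0 : (![c0, c0, z] : Fin 3 → ℝ) 0 = c0 := rfl
  have e1 : (![c0, c0, z] : Fin 3 → ℝ) 1 = c0 := rfl
  have e2 : (![c0, c0, z] : Fin 3 → ℝ) 2 = z := rfl
  have hPv : P ![c0, c0, z] = 49 / 100 := by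
    simp only [hP]
    rw [e0, e1, c0]
    have : (1 - 2 * ((2499:ℝ) / 10000 + 2499 / 10000)) = (2 / 100) ^ 2 := by norm_num
    rw [this, Real.sqrt_sq (by norm_num)]
    norm_num
  have hAv : Aa ![c0, c0, z] = 0 := by
    simp only [hAa]
    rw [hPv, e0, c0]; norm_num
  simp only [a1, a2, p1, p2, mem_Icc] at hz
  refine ⟨?_, ?_, ?_, ?_, ?_⟩
  · rw [e0, e1, c0]; norm_num
  · rw [hPv]; norm_num [abs_lt]
  · rw [hAv]; norm_num
  · simp only [hL]
    rw [hPv, hAv, e2]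
    linarith [hz.1, hz.2]
  · simp only [hR]
    rw [hPv, hAv, e2]
    linarith [hz.1, hz.2]

theorem main : Function.Injective W0 ∧ ∃ δ ∈ interior (feasibleSet W0),
    ¬ DifferentiableAt ℝ (entropyFn W0) δ := by
  refine ⟨?_, ?_⟩
  · intro i j h
    revert h
    fin_cases i <;> fin_cases j <;> simp [W0]
  · obtain ⟨z, hz, hd⟩ := exists_point
    refine ⟨![c0, c0, z], seg_interior hz, fun hdiff => hd ?_⟩
    have hcomp : DifferentiableAt ℝ (fun z : ℝ => (![c0, c0, z] : Fin 3 → ℝ)) z := by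
      rw [differentiableAt_pi]
      intro i
      fin_cases i <;> simp
    exact DifferentiableAt.comp (g := entropyFn W0) z hdiff hcomp

end Pool.Agent.R122.Ent
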